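import Pool.Agent.Work.MP_e120ef_ag.Br.Fin2

open CategoryTheory AlgebraicGeometry Pool.Agent.Work.MP_e120ef_ag

namespace Pool.Agent.Results.MP_e120ef_ag.ConstantNotSpecial

theorem result (k K : Type) [Field k] [CharZero k] [NontriviallyNormedField K]
    [IsUltrametricDist K] [CompleteSpace K] [IsAlgClosed K] [Algebra k K] (Y : Sch k) (X : Sch K)
    [IsIntegral Y.left] [IsProper Y.hom] [Smooth Y.hom] [IsIntegral X.left]
    [LocallyOfFiniteType X.hom] (π : Fn Y →+* Fn X)
    (hπ : ∀ c : k, π (algebraMap k (Fn Y) c) = algebraMap K (Fn X) (algebraMap k K c)) (p : ℕ)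
    (s : Fin p → Fn Y) (hs : AlgebraicIndependent K fun i => π (s i)) (hp : p ≤ 2)
    (hk : p = 2 → ∀ c : k, ‖algebraMap k K c‖ ≤ 1) (m : ℕ) (h h' : Fn Y)
    (hh : h ∈ Pluri (O Y) s m) (hh' : h' ∈ Pluri (O Y) s m)
    (hne : ∀ c : K, π (h / h') ≠ algebraMap K (Fn X) c) : ¬ Br.Special X :=
  haveI : CharZero K := charZero_of_injective_algebraMap (algebraMap k K).injective
  Br.final_const (Br.hasCore K) π hπ hs hp hk hh hh' hne

end Pool.Agent.Results.MP_e120ef_ag.ConstantNotSpecial
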