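import Pool.Agent.Work.MP_e120ef_ag.F.Main

open CategoryTheory AlgebraicGeometry Pool.Agent.Work.MP_e120ef_ag

namespace Pool.Agent.Results.MP_e120ef_ag.McQuillanNotSpecial

theorem result (K : Type) [NontriviallyNormedField K] [IsUltrametricDist K] [CompleteSpace K]
    [IsAlgClosed K] (hK : ∀ n : ℕ, n ≠ 0 → ‖(n : K)‖ = 1) (Y X : Sch K) [IsIntegral Y.left]
    [IsProper Y.hom] [Smooth Y.hom] [IsIntegral X.left] [LocallyOfFiniteType X.hom]
    (π : Fn Y →ₐ[K] Fn X) (s : Fin 2 → Fn Y) (hs : IsTranscendenceBasis K s) (m : ℕ)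
    (hκ : ∀ u : Fn Y, AlgQ K (Pluri (O Y) s m) u) (d : ℕ) (a a' : Fin (d + 1) → Fn Y)
    (ha : a ∈ SymD (O Y) s d) (ha' : a' ∈ SymD (O Y) s d) (hi : LinearIndependent K ![a, a']) :
    ¬ Br.Special X :=
  H.MQ.not_special hK π hs hκ ha ha' hi

end Pool.Agent.Results.MP_e120ef_ag.McQuillanNotSpecial
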