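import Pool.Agent.Work.MP_e120ef_ag.Final

open CategoryTheory AlgebraicGeometry Pool.Agent.Work.MP_e120ef_ag

namespace Pool.Agent.Results.MP_e120ef_ag.TorusDegeneracy

theorem result (K : Type) [NontriviallyNormedField K] [IsUltrametricDist K] [CompleteSpace K]
    [IsAlgClosed K] [CharZero K] (X A : Sch K) [IsIntegral X.left] [IsProper X.hom] [Smooth X.hom]
    [GrpObj A] [IsProper A.hom] [GeometricallyIntegral A.hom] [IsIntegral A.left] (α : X ⟶ A)
    [IsDominant α.left] (g : ℕ) (t : Fin g → Fn A) (ht : IsTranscendenceBasis K t) (m : ℕ)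
    (hκ : ∀ a : Fn A, AlgQ K (Pluri (O X) (fun i => pull α (t i)) m) (pull α a))
    (V : Type) [Fintype V] (free : V → Prop) (h : Fn A) :
    Contracts K (fun a : An K free => a.1) (fun z z' => ∀ v, ¬ free v → z.1 v = z'.1 v)
      (pull α h) :=
  fun ι a b hb hab z z' hz => final K X A α g t ht m hκ V free ι h a b hb hab z z' hz

end Pool.Agent.Results.MP_e120ef_ag.TorusDegeneracy
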